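import Pool.Agent.N831.GA.Stm

/-!
# Project GA (helper831), TR1 (helper700): the inequalities of Caratheodory and Harnack
-/

set_option autoImplicit false

open Complex Metric Filter Topology

namespace Pool.Agent.N700.GA.TR1

theorem nsq (a b : ℂ) : ‖b + (starRingEnd ℂ) a‖ ^ 2 - ‖b - a‖ ^ 2 = 4 * (a.re * b.re) := by
  rw [← normSq_eq_norm_sq, ← normSq_eq_norm_sq, normSq_apply, normSq_apply]
  simp only [add_re, add_im, sub_re, sub_im, conj_re, conj_im]
  ring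

/-- the Schwarz lemma, for positive real part -/
theorem schw {p : ℂ → ℂ} (hp : DifferentiableOn ℂ p (ball 0 1))
    (h : ∀ z ∈ ball (0 : ℂ) 1, 0 < (p z).re) {z : ℂ} (hz : z ∈ ball (0 : ℂ) 1) :
    ‖p z - p 0‖ ≤ ‖z‖ * ‖p z + (starRingEnd ℂ) (p 0)‖ := by
  have h0 : (0 : ℂ) ∈ ball (0 : ℂ) 1 := by simp
  have hne : ∀ w ∈ ball (0 : ℂ) 1, p w + (starRingEnd ℂ) (p 0) ≠ 0 := by
    intro w hw hcon
    have h1 := congrArg Complex.re hcon
    simp only [add_re, conj_re, zero_re] at h1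
    have h2 := h w hw
    have h3 := h 0 h0
    linarith
  let w : ℂ → ℂ := fun z => (p z - p 0) / (p z + (starRingEnd ℂ) (p 0))
  have hw : DifferentiableOn ℂ w (ball 0 1) :=
    (hp.sub_const _).div (hp.add_const _) hne
  have hw0 : w 0 = 0 := by simp [w]
  have hmaps : Set.MapsTo w (ball 0 1) (closedBall 0 1) := by
    intro u hu
    rw [mem_closedBall_zero_iff]
    change ‖(p u - p 0) / (p u + (starRingEnd ℂ) (p 0))‖ ≤ 1
    rw [norm_div, div_le_one (norm_pos_iff.2 (hne u hu))]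
    have h1 := nsq (p 0) (p u)
    have h2 := mul_pos (h 0 h0) (h u hu)
    refine le_of_sq_le_sq ?_ (norm_nonneg _)
    linarith
  have h1 : ‖w z‖ ≤ ‖z‖ :=
    norm_le_norm_of_mapsTo_ball hw hmaps hw0 (by simpa using hz)
  have h2 : ‖w z‖ * ‖p z + (starRingEnd ℂ) (p 0)‖ = ‖p z - p 0‖ := by
    change ‖(p z - p 0) / (p z + (starRingEnd ℂ) (p 0))‖ * _ = _
    rw [norm_div, div_mul_cancel₀ _ (norm_ne_zero_iff.2 (hne z hz))]
  rw [← h2]
  gcongr

/-- the Schwarz lemma, for nonnegative real part -/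
theorem schw0 {p : ℂ → ℂ} (hp : DifferentiableOn ℂ p (ball 0 1))
    (h : ∀ z ∈ ball (0 : ℂ) 1, 0 ≤ (p z).re) {z : ℂ} (hz : z ∈ ball (0 : ℂ) 1) :
    ‖p z - p 0‖ ≤ ‖z‖ * ‖p z + (starRingEnd ℂ) (p 0)‖ := by
  have key : ∀ e : ℝ, 0 < e → ‖p z - p 0‖ ≤ ‖z‖ * ‖p z + (starRingEnd ℂ) (p 0) + 2 * e‖ := by
    intro e he
    have h1 := schw (p := fun w => p w + e) (hp.add_const _) (fun w hw => by
      have := h w hw
      simp only [add_re, ofReal_re]
      linarith) hz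
    simp only [map_add, conj_ofReal] at h1
    have e1 : p z + e - (p 0 + e) = p z - p 0 := by ring
    have e2 : p z + (e : ℂ) + ((starRingEnd ℂ) (p 0) + e) = p z + (starRingEnd ℂ) (p 0) + 2 * e := by
      ring
    rw [e1, e2] at h1
    exact h1
  have hlim : Tendsto (fun e : ℝ => ‖z‖ * ‖p z + (starRingEnd ℂ) (p 0) + 2 * (e : ℂ)‖) (𝓝[>] 0)
      (𝓝 (‖z‖ * ‖p z + (starRingEnd ℂ) (p 0) + 2 * ((0 : ℝ) : ℂ)‖)) := by
    refine Tendsto.mono_left ?_ nhdsWithin_le_nhds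
    exact Continuous.tendsto (by fun_prop) 0
  have h2 := ge_of_tendsto hlim (by
    filter_upwards [self_mem_nhdsWithin] with e he
    exact key e he)
  simpa using h2

theorem t : Pool.Agent.N831.GA.S_TR1 := by
  intro p hp h z hz
  have hz1 : ‖z‖ < 1 := by simpa using hz
  have hz0 := norm_nonneg z
  have h1 := schw0 hp h hz
  constructor
  · have h2 : ‖p z + (starRingEnd ℂ) (p 0)‖ ≤ ‖p z‖ + ‖p 0‖ := by
      refine (norm_add_le _ _).trans ?_
      rw [Complex.norm_conj]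
    have h3 : ‖p z‖ - ‖p 0‖ ≤ ‖p z - p 0‖ := norm_sub_norm_le _ _
    have h4 : ‖z‖ * ‖p z + (starRingEnd ℂ) (p 0)‖ ≤ ‖z‖ * (‖p z‖ + ‖p 0‖) := by gcongr
    nlinarith
  · intro him
    set x := (p z).re with hx
    set y := (p z).im with hy
    set a := (p 0).re with ha
    set r := ‖z‖ with hr
    have hx0 : 0 ≤ x := h z hz
    have ha0 : 0 ≤ a := h 0 (by simp)
    have h2 : ‖p z - p 0‖ ^ 2 ≤ (r * ‖p z + (starRingEnd ℂ) (p 0)‖) ^ 2 := by gcongr
    rw [mul_pow, ← normSq_eq_norm_sq (p z - p 0), ← normSq_eq_norm_sq (p z + (starRingEnd ℂ) (p 0)),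
      normSq_apply, normSq_apply] at h2
    simp only [add_re, add_im, sub_re, sub_im, conj_re, conj_im, him, ← hx, ← hy, ← ha] at h2
    have h3 : (a - x) ^ 2 ≤ (r * (x + a)) ^ 2 := by
      have h4 : 0 ≤ (1 - r ^ 2) * y ^ 2 := by
        refine mul_nonneg ?_ (sq_nonneg _)
        nlinarith
      nlinarith
    have h5 : a - x ≤ r * (x + a) := by
      refine (le_abs_self _).trans ?_
      exact abs_le_of_sq_le_sq h3 (by positivity)
    linarith

end Pool.Agent.N700.GA.TR1
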